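import Mathlib

/-!
# Families of smooth projective varieties over the affine space and the averages over the fibres

`X` is a set of homogeneous polynomials in `l` variables whose coefficients are polynomials with integer
coefficients in parameters `c = (c_j)`, `j ∈ ι`; it defines a family of projective varieties over the
affine space with the coordinates `c_j`, `f : 𝒳 → 𝒴 = 𝔸^ι`.  `P` is a polynomial in the parameters; the
family is smooth, of relative dimension `d`, outside the hypersurface `P = 0` (a prime at which it is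
nowhere smooth divides `P`).
-/

set_option autoImplicit false

namespace Pool.Agent.H28.RF

open Finset Filter Topology

variable {ι : Type} [Fintype ι] [DecidableEq ι] {l : ℕ}

/-- The number of the nonzero solutions in `κ` of the equations of the fibre over the point `c` with
coordinates in the field `κ`; for a finite field with `q` elements this is `(q - 1)` times the number of
the points of the fibre with coordinates in `κ`. -/
noncomputable def fibreCone (X : Set (MvPolynomial (Fin l) (MvPolynomial ι ℤ))) {κ : Type} [Field κ]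
    (c : ι → κ) : ℕ :=
  Nat.card {u : Fin l → κ // u ≠ 0 ∧ ∀ F ∈ X,
    MvPolynomial.eval₂ (MvPolynomial.eval₂Hom (Int.castRingHom κ) c) u F = 0}

/-- The value of the polynomial `P` at the point `c`. -/
noncomputable def value (P : MvPolynomial ι ℤ) {κ : Type} [Field κ] (c : ι → κ) : κ :=
  MvPolynomial.eval₂ (Int.castRingHom κ) c P

/-- The reduction of an integral point modulo `p`. -/
def reduction (p : ℕ) (c : ι → ℤ) : ι → ZMod p := fun j => (c j : ZMod p)

/-- `α` is the multiset of the eigenvalues of the geometric Frobenius on `H^i` of the fibre over the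
point `c` with coordinates in `𝔽_p`: there are finite multisets `β_k` of complex numbers of absolute
value `p^{k/2}`, `k = 0, …, 2d`, with `β_i = α`, such that for every finite extension `κ` of `𝔽_p`, of
degree `e`, the number of the points of the fibre with coordinates in `κ` is
`∑ (-1)^k ∑_{z ∈ β_k} z^e`.  By the theorem of Deligne such `β_k` exist for a smooth fibre; they are
unique. -/
def IsFrobenius (X : Set (MvPolynomial (Fin l) (MvPolynomial ι ℤ))) (d i p : ℕ) [Fact p.Prime]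
    (c : ι → ZMod p) (α : Multiset ℂ) : Prop :=
  ∃ β : ℕ → Multiset ℂ, β i = α ∧ (∀ k, ∀ z ∈ β k, ‖z‖ = (p : ℝ) ^ ((k : ℝ) / 2)) ∧
    ∀ (κ : Type) [Field κ] [Finite κ] [Algebra (ZMod p) κ],
      (fibreCone X (fun j => algebraMap (ZMod p) κ (c j)) : ℂ) =
        ((p : ℂ) ^ Module.finrank (ZMod p) κ - 1) * ∑ k ∈ Finset.range (2 * d + 1),
          (-1 : ℂ) ^ k * ((β k).map (fun z => z ^ Module.finrank (ZMod p) κ)).sum

/-- `X` is a family of smooth projective varieties of dimension `d` over the complement of `P = 0`, with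
`i`-th Betti number `b`, and `t p c` the trace of the geometric Frobenius on `H^i` of the fibre over
`c ∈ 𝔸^ι(𝔽_p)`, if `P(c) ≠ 0`; if `P(c) = 0` it is any number of absolute value at most `b p^{i/2}`, for
example the trace on the invariants of inertia. -/
structure IsFamily (X : Set (MvPolynomial (Fin l) (MvPolynomial ι ℤ))) (P : MvPolynomial ι ℤ)
    (d i b : ℕ) (t : ∀ p : ℕ, (ι → ZMod p) → ℂ) : Prop where
  ne_zero : P ≠ 0
  trace : ∀ (p : ℕ) [Fact p.Prime] (c : ι → ZMod p), value P c ≠ 0 →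
    ∃ α : Multiset ℂ, IsFrobenius X d i p c α ∧ α.card = b ∧ t p c = α.sum
  bound : ∀ (p : ℕ) [Fact p.Prime] (c : ι → ZMod p), ‖t p c‖ ≤ b * (p : ℝ) ^ ((i : ℝ) / 2)

/-- The average of the traces over the points of `𝔸^ι(𝔽_p)`: the number `𝔅_p(𝒳)` of the problem. -/
noncomputable def average (t : ∀ p : ℕ, (ι → ZMod p) → ℂ) (p : ℕ) : ℂ :=
  (∑ᶠ c : ι → ZMod p, t p c) / (p : ℂ) ^ Fintype.card ι

/-- The Dirichlet series `∑_p 𝔅_p log p p^{-s}` of the problem. -/
noncomputable def residueSeries (t : ∀ p : ℕ, (ι → ZMod p) → ℂ) (s : ℂ) : ℂ :=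
  ∑' p : Nat.Primes, average t p * Real.log p * ((p : ℕ) : ℂ) ^ (-s)

/-- The Dirichlet series `∑_p 𝔅_p p^{-s}`. -/
noncomputable def meanSeries (t : ∀ p : ℕ, (ι → ZMod p) → ℂ) (s : ℂ) : ℂ :=
  ∑' p : Nat.Primes, average t p * ((p : ℕ) : ℂ) ^ (-s)

/-- `c` is an integral point with `P(c) ≠ 0`, and `α p j`, `j < b`, are the eigenvalues of the geometric
Frobenius at `p` on the invariants of inertia of `H^i` of the fibre `X_c`, a smooth projective variety
over `ℚ`; zeros are added if there are fewer than `b` of them.  All eigenvalues have absolute value at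
most `p^{i/2}`, and if `P(c)` is prime to `p`, then `X_c` has good reduction at `p`, and they are
the eigenvalues for the reduction. -/
structure IsMember (X : Set (MvPolynomial (Fin l) (MvPolynomial ι ℤ))) (P : MvPolynomial ι ℤ)
    (d i b : ℕ) (c : ι → ℤ) (α : ℕ → Fin b → ℂ) : Prop where
  smooth : MvPolynomial.eval c P ≠ 0
  bound : ∀ p : ℕ, p.Prime → ∀ j, ‖α p j‖ ≤ (p : ℝ) ^ ((i : ℝ) / 2)
  good : ∀ (p : ℕ) [Fact p.Prime], value P (reduction p c) ≠ 0 →
    IsFrobenius X d i p (reduction p c) (Finset.univ.val.map (α p))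

/-- The Euler product `L(H^i(X_c), s) = ∏_p ∏_j (1 - α p j p^{-s})⁻¹`. -/
noncomputable def LFun {b : ℕ} (α : ℕ → Fin b → ℂ) (s : ℂ) : ℂ :=
  ∏' p : Nat.Primes, ∏ j, (1 - α p j * ((p : ℕ) : ℂ) ^ (-s))⁻¹

/-- The integral points with coordinates of absolute value at most `H`. -/
noncomputable def points (ι : Type) [Fintype ι] [DecidableEq ι] (H : ℕ) : Finset (ι → ℤ) :=
  Fintype.piFinset fun _ => Finset.Icc (-(H : ℤ)) H

/-- The mean square of `log |L(H^i(X_c), i/2 + 1 + ε_c)| - Re ∑_p 𝔅_p p^{-(i/2 + 1 + ε_c)}` over the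
integral points `c` of height at most `H` with `P(c) ≠ 0` is bounded, by a number that does not depend on
`H`, for all choices of `ε_c` with `1 / log H ≤ ε_c ≤ 1`. -/
def MeanSquare (X : Set (MvPolynomial (Fin l) (MvPolynomial ι ℤ))) (P : MvPolynomial ι ℤ)
    (d i b : ℕ) (t : ∀ p : ℕ, (ι → ZMod p) → ℂ) : Prop :=
  ∃ C : ℝ, ∀ H : ℕ, 2 ≤ H → ∀ S ⊆ points ι H, ∀ (α : (ι → ℤ) → ℕ → Fin b → ℂ)
    (ε : (ι → ℤ) → ℝ), (∀ c ∈ S, IsMember X P d i b c (α c)) →
    (∀ c ∈ S, 1 / Real.log H ≤ ε c ∧ ε c ≤ 1) →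
    ∑ c ∈ S, (Real.log ‖LFun (α c) ((i : ℂ) / 2 + 1 + ε c)‖ -
      (meanSeries t ((i : ℂ) / 2 + 1 + ε c)).re) ^ 2 ≤ C * (points ι H).card

/-- Almost all fibres behave as if `L(H^i(X_c), s)` had a pole of order `r` at `s = i/2 + 1`: for every
`δ > 0` there is `C` such that for all `H` the proportion of the integral points `c` of height at most
`H` for which `ε^r |L(H^i(X_c), i/2 + 1 + ε)|` is not between `e^{-C}` and `e^C` for all `ε` with
`1 / log H ≤ ε ≤ 1` is at most `δ`. -/
def AlmostAll (X : Set (MvPolynomial (Fin l) (MvPolynomial ι ℤ))) (P : MvPolynomial ι ℤ)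
    (d i b : ℕ) (r : ℝ) : Prop :=
  ∀ δ : ℝ, 0 < δ → ∃ C : ℝ, ∀ H : ℕ, 2 ≤ H → ∀ S ⊆ points ι H,
    ∀ α : (ι → ℤ) → ℕ → Fin b → ℂ, (∀ c ∈ S, IsMember X P d i b c (α c)) →
    (∀ c ∈ S, ∃ ε : ℝ, 1 / Real.log H ≤ ε ∧ ε ≤ 1 ∧
      C < |Real.log ‖LFun (α c) ((i : ℂ) / 2 + 1 + ε)‖ - r * Real.log (1 / ε)|) →
    (S.card : ℝ) ≤ δ * (points ι H).card

/-- `∑_p 𝔅_p p^{-(i/2 + 1 + ε)} = r log(1/ε) + O(1)` for `0 < ε ≤ 1`, for the real parts. -/
def MeanOrder (t : ∀ p : ℕ, (ι → ZMod p) → ℂ) (i : ℕ) (r : ℝ) : Prop :=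
  ∃ C : ℝ, ∀ ε : ℝ, 0 < ε → ε ≤ 1 →
    |(meanSeries t ((i : ℂ) / 2 + 1 + ε)).re - r * Real.log (1 / ε)| ≤ C

/-- The Dirichlet series `∑_p 𝔅_p log p p^{-s}` has a continuation to a neighbourhood of `s = i/2 + 1`
which is holomorphic except for at most a simple pole at `i/2 + 1`, with the residue `r`. -/
def HasResidue (t : ∀ p : ℕ, (ι → ZMod p) → ℂ) (i : ℕ) (r : ℝ) : Prop :=
  ∃ g : ℂ → ℂ, AnalyticAt ℂ g ((i : ℂ) / 2 + 1) ∧ ∀ᶠ s in 𝓝 ((i : ℂ) / 2 + 1),
    (i : ℝ) / 2 + 1 < s.re → residueSeries t s = r / (s - ((i : ℂ) / 2 + 1)) + g s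

end Pool.Agent.H28.RF
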