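import Pool.Agent.H28.RF.Mean

set_option autoImplicit false

namespace Pool.Agent.H28.RF

open Finset Filter Topology Pool.Agent.Y722.HS Pool.Agent.Y722.LS

variable {ι : Type} [Fintype ι] [DecidableEq ι] {l : ℕ}
  {X : Set (MvPolynomial (Fin l) (MvPolynomial ι ℤ))} {P : MvPolynomial ι ℤ} {d i b : ℕ}
  {t : ∀ p : ℕ, (ι → ZMod p) → ℂ}

/-- The exceptional members for the mean series are rare. -/
theorem rare (hms : MeanSquare X P d i b t) : ∀ δ : ℝ, 0 < δ → ∃ C : ℝ, 0 ≤ C ∧ ∀ H : ℕ, 2 ≤ H →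
    ∀ S ⊆ points ι H, ∀ α : (ι → ℤ) → ℕ → Fin b → ℂ, (∀ c ∈ S, IsMember X P d i b c (α c)) →
    (∀ c ∈ S, ∃ ε : ℝ, 1 / Real.log H ≤ ε ∧ ε ≤ 1 ∧
      C < |Real.log ‖LFun (α c) ((i : ℂ) / 2 + 1 + ε)‖ -
        (meanSeries t ((i : ℂ) / 2 + 1 + ε)).re|) →
    (S.card : ℝ) ≤ δ * (points ι H).card := by
  classical
  intro δ hδ
  obtain ⟨C0, hC0⟩ := hms
  set C1 : ℝ := |C0| + 1 with hC1
  have hC1pos : 0 < C1 := by positivity
  refine ⟨Real.sqrt (C1 / δ), Real.sqrt_nonneg _, fun H hH S hS α hα hex => ?_⟩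
  choose! ε h1 h2 h3 using hex
  have h4 := hC0 H hH S hS α ε hα fun c hc => ⟨h1 c hc, h2 c hc⟩
  have h5 : ∀ c ∈ S, C1 / δ ≤ (Real.log ‖LFun (α c) ((i : ℂ) / 2 + 1 + ε c)‖ -
      (meanSeries t ((i : ℂ) / 2 + 1 + ε c)).re) ^ 2 := by
    intro c hc
    have h6 := h3 c hc
    rw [← sq_abs]
    have h7 : (Real.sqrt (C1 / δ)) ^ 2 = C1 / δ := Real.sq_sqrt (by positivity)
    rw [← h7]
    exact pow_le_pow_left₀ (Real.sqrt_nonneg _) h6.le 2
  have h6 : (S.card : ℝ) * (C1 / δ) ≤ C0 * (points ι H).card := by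
    rw [← nsmul_eq_mul]
    exact (Finset.card_nsmul_le_sum S _ _ h5).trans h4
  have h7 : C0 * ((points ι H).card : ℝ) ≤ C1 * (points ι H).card := by
    have : C0 ≤ C1 := by have := le_abs_self C0; linarith
    gcongr
  have h8 : (S.card : ℝ) * C1 ≤ C1 * (δ * (points ι H).card) := by
    have h9 : (S.card : ℝ) * (C1 / δ) ≤ C1 * (points ι H).card := h6.trans h7
    rw [mul_div_assoc', div_le_iff₀ hδ] at h9
    linarith
  have h9 : C1 * (S.card : ℝ) ≤ C1 * (δ * (points ι H).card) := by linarith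
  exact le_of_mul_le_mul_left h9 hC1pos

theorem almostAll_of_meanOrder (hms : MeanSquare X P d i b t) {r : ℝ} (h : MeanOrder t i r) :
    AlmostAll X P d i b r := by
  intro δ hδ
  obtain ⟨C1, hC1, h1⟩ := rare hms δ hδ
  obtain ⟨C2, hC2⟩ := h
  refine ⟨C1 + C2, fun H hH S hS α hα hex => h1 H hH S hS α hα fun c hc => ?_⟩
  obtain ⟨ε, e1, e2, e3⟩ := hex c hc
  have hlogH : 0 < Real.log H := Real.log_pos (by exact_mod_cast (by omega : 1 < H))
  have hε : 0 < ε := lt_of_lt_of_le (by positivity) e1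
  refine ⟨ε, e1, e2, ?_⟩
  have h2 := hC2 ε hε e2
  have h3 := abs_add_le (Real.log ‖LFun (α c) ((i : ℂ) / 2 + 1 + ε)‖ -
        (meanSeries t ((i : ℂ) / 2 + 1 + ε)).re)
    ((meanSeries t ((i : ℂ) / 2 + 1 + ε)).re - r * Real.log (1 / ε))
  have e : (Real.log ‖LFun (α c) ((i : ℂ) / 2 + 1 + ε)‖ -
        (meanSeries t ((i : ℂ) / 2 + 1 + ε)).re) +
    ((meanSeries t ((i : ℂ) / 2 + 1 + ε)).re - r * Real.log (1 / ε)) =
    Real.log ‖LFun (α c) ((i : ℂ) / 2 + 1 + ε)‖ - r * Real.log (1 / ε) := by ring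
  rw [e] at h3
  linarith

/-- The integral points outside `P = 0` are members. -/
theorem exists_member (h : IsFamily X P d i b t) (c : ι → ℤ) (hc : MvPolynomial.eval c P ≠ 0) :
    ∃ α : ℕ → Fin b → ℂ, IsMember X P d i b c α := by
  classical
  have h1 : ∀ p : ℕ, ∃ a : Fin b → ℂ, (p.Prime → ∀ j, ‖a j‖ ≤ (p : ℝ) ^ ((i : ℝ) / 2)) ∧
      ∀ [Fact p.Prime], value P (reduction p c) ≠ 0 →
        IsFrobenius X d i p (reduction p c) (Finset.univ.val.map a) := by
    intro p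
    by_cases hp : p.Prime
    · have hF := Fact.mk hp
      by_cases hv : value P (reduction p c) ≠ 0
      · obtain ⟨m, hm1, hm2, -⟩ := h.trace p (reduction p c) hv
        obtain ⟨L, hL⟩ : ∃ L : List ℂ, (L : Multiset ℂ) = m := Quot.exists_rep m
        have hlen : L.length = b := by rw [← hm2, ← hL]; rfl
        have hmap : (Finset.univ.val.map fun j : Fin b => L.get (j.cast hlen.symm)) = m := by
          rw [← hL]
          subst hlen
          have := List.ofFn_get L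
          conv_rhs => rw [← this]
          rw [Fin.univ_val_map]
          rfl
        refine ⟨fun j => L.get (j.cast hlen.symm), fun _ j => ?_, ?_⟩
        · obtain ⟨β, hβ, hn, -⟩ := hm1
          have hmem : L.get (j.cast hlen.symm) ∈ β i := by
            rw [hβ, ← hL]
            exact List.get_mem _ _
          exact (hn i _ hmem).le
        · intro _ _
          rw [hmap]
          exact hm1
      · exact ⟨fun _ => 0, fun _ _ => by rw [norm_zero]; positivity, fun h' => absurd h' hv⟩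
    · exact ⟨fun _ => 0, fun h' => absurd h' hp, fun {hF} => absurd hF.out hp⟩
  choose α hα1 hα2 using h1
  exact ⟨α, hc, fun p hp j => hα1 p hp j, fun p _ hv => hα2 p hv⟩

/-- The zeros of `P` are rare. -/
theorem zeros_rare (h : IsFamily X P d i b t) : ∃ H0 : ℕ, ∀ H : ℕ, H0 ≤ H →
    (((points ι H).filter fun c => MvPolynomial.eval c P = 0).card : ℝ) ≤
      1 / 4 * (points ι H).card := by
  classical
  obtain ⟨c0, hc0⟩ := exists_pt h.ne_zero
  have hfam := fam h c0 hc0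
  obtain ⟨p, hp1, hp⟩ := Nat.exists_infinite_primes (⌈4 * 2 ^ Fintype.card ι * AA P c0 b⌉₊ + 1)
  refine ⟨p, fun H hH => ?_⟩
  have hF := Fact.mk hp
  have hp0 : (0 : ℝ) < p := by exact_mod_cast hp.pos
  have h1 := EB_le (ι := ι) H p (by omega) (fun c => BB P p c) (fun c => hfam.nonneg p c)
  have h2 := hfam.bad p
  have h3 : 2 ^ Fintype.card ι * EM p (fun c : ι → ZMod p => BB P p c) ≤ 1 / 4 := by
    have h4 : 4 * 2 ^ Fintype.card ι * AA P c0 b ≤ p := by
      have h5 := Nat.le_ceil (4 * 2 ^ Fintype.card ι * AA P c0 b)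
      have h6 : ((⌈4 * 2 ^ Fintype.card ι * AA P c0 b⌉₊ : ℕ) : ℝ) ≤ p := by
        exact_mod_cast (by omega : ⌈4 * 2 ^ Fintype.card ι * AA P c0 b⌉₊ ≤ p)
      linarith
    calc _ ≤ 2 ^ Fintype.card ι * (AA P c0 b / p) := by gcongr
      _ ≤ 1 / 4 := by
        rw [← mul_div_assoc, div_le_iff₀ hp0]
        linarith
  have h4 : EB H (fun c : ι → ℤ => BB P p (red p c)) ≤ 1 / 4 := h1.trans h3
  have hB : (0 : ℝ) < (2 * H + 1 : ℝ) ^ Fintype.card ι := by positivity
  unfold EB at h4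
  rw [div_le_iff₀ hB] at h4
  rw [points_eq, card_box]
  refine le_trans ?_ h4
  have h5 : (((box ι H).filter fun c => MvPolynomial.eval c P = 0).card : ℝ) =
      ∑ c ∈ box ι H, if MvPolynomial.eval c P = 0 then (1 : ℝ) else 0 := by
    rw [Finset.sum_boole]
  rw [h5]
  refine Finset.sum_le_sum fun c _ => ?_
  split_ifs with h6
  · unfold BB
    rw [if_pos]
    have h7 := MvPolynomial.eval₂_comp_left (Int.castRingHom (ZMod p)) (RingHom.id ℤ) c P
    rw [MvPolynomial.eval₂_id, h6, map_zero] at h7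
    rw [show red p c = (Int.castRingHom (ZMod p)) ∘ c from rfl]
    rw [RingHom.comp_id] at h7
    exact h7.symm
  · exact hfam.nonneg p _

theorem meanOrder_of_almostAll (hi : i ≤ 2 * d) (h : IsFamily X P d i b t) {r : ℝ}
    (hr : AlmostAll X P d i b r) : MeanOrder t i r := by
  classical
  obtain ⟨C1, hC1, h1⟩ := rare (mean_square hi h) (1 / 4) (by norm_num)
  obtain ⟨C2, h2⟩ := hr (1 / 4) (by norm_num)
  obtain ⟨H0, hH0⟩ := zeros_rare h
  refine ⟨C1 + C2, fun ε hε hε1 => ?_⟩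
  obtain ⟨H, hH2, hHH0, hHε⟩ : ∃ H : ℕ, 2 ≤ H ∧ H0 ≤ H ∧ 1 / Real.log H ≤ ε := by
    refine ⟨max (max 2 H0) ⌈Real.exp (1 / ε)⌉₊, by omega, by omega, ?_⟩
    set H := max (max 2 H0) ⌈Real.exp (1 / ε)⌉₊
    have h3 : Real.exp (1 / ε) ≤ (H : ℝ) := by
      have h4 := Nat.le_ceil (Real.exp (1 / ε))
      have h5 : ((⌈Real.exp (1 / ε)⌉₊ : ℕ) : ℝ) ≤ (H : ℝ) := by exact_mod_cast le_max_right _ _
      linarith
    have hHpos : (0 : ℝ) < H := lt_of_lt_of_le (Real.exp_pos _) h3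
    have h4 : 1 / ε ≤ Real.log H := (Real.le_log_iff_exp_le hHpos).mpr h3
    rw [div_le_iff₀ (lt_of_lt_of_le (by positivity) h4)]
    rw [div_le_iff₀ hε] at h4
    linarith
  by_contra hcon
  push Not at hcon
  set G := (points ι H).filter fun c => MvPolynomial.eval c P ≠ 0 with hG
  have hmem : ∀ c ∈ G, ∃ α : ℕ → Fin b → ℂ, IsMember X P d i b c α := fun c hc =>
    exists_member h c (Finset.mem_filter.mp hc).2
  choose! α hα using hmem
  set S1 := G.filter fun c => C1 < |Real.log ‖LFun (α c) ((i : ℂ) / 2 + 1 + ε)‖ -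
        (meanSeries t ((i : ℂ) / 2 + 1 + ε)).re| with hS1
  set S2 := G.filter fun c => C2 < |Real.log ‖LFun (α c) ((i : ℂ) / 2 + 1 + ε)‖ -
        r * Real.log (1 / ε)| with hS2
  have hG0 : G ⊆ points ι H := Finset.filter_subset _ _
  have k1 := h1 H hH2 S1 ((Finset.filter_subset _ _).trans hG0) α
    (fun c hc => hα c (Finset.mem_filter.mp hc).1)
    (fun c hc => ⟨ε, hHε, hε1, (Finset.mem_filter.mp hc).2⟩)
  have k2 := h2 H hH2 S2 ((Finset.filter_subset _ _).trans hG0) α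
    (fun c hc => hα c (Finset.mem_filter.mp hc).1)
    (fun c hc => ⟨ε, hHε, hε1, (Finset.mem_filter.mp hc).2⟩)
  have k3 := hH0 H hHH0
  have hcover : G ⊆ S1 ∪ S2 := by
    intro c hc
    by_cases a1 : C1 < |Real.log ‖LFun (α c) ((i : ℂ) / 2 + 1 + ε)‖ -
        (meanSeries t ((i : ℂ) / 2 + 1 + ε)).re|
    · exact Finset.mem_union_left _ (Finset.mem_filter.mpr ⟨hc, a1⟩)
    by_cases a2 : C2 < |Real.log ‖LFun (α c) ((i : ℂ) / 2 + 1 + ε)‖ - r * Real.log (1 / ε)|
    · exact Finset.mem_union_right _ (Finset.mem_filter.mpr ⟨hc, a2⟩)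
    exfalso
    push Not at a1 a2
    have a3 := abs_sub (Real.log ‖LFun (α c) ((i : ℂ) / 2 + 1 + ε)‖ - r * Real.log (1 / ε))
      (Real.log ‖LFun (α c) ((i : ℂ) / 2 + 1 + ε)‖ - (meanSeries t ((i : ℂ) / 2 + 1 + ε)).re)
    have e : (Real.log ‖LFun (α c) ((i : ℂ) / 2 + 1 + ε)‖ - r * Real.log (1 / ε)) -
      (Real.log ‖LFun (α c) ((i : ℂ) / 2 + 1 + ε)‖ - (meanSeries t ((i : ℂ) / 2 + 1 + ε)).re) =
      (meanSeries t ((i : ℂ) / 2 + 1 + ε)).re - r * Real.log (1 / ε) := by ring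
    rw [e] at a3
    linarith
  have hcardG : (G.card : ℝ) ≤ S1.card + S2.card := by
    have h5 := (Finset.card_le_card hcover).trans (Finset.card_union_le S1 S2)
    exact_mod_cast h5
  have hsplit : (((points ι H).filter fun c => MvPolynomial.eval c P = 0).card : ℝ) + G.card =
      (points ι H).card := by
    rw [hG]
    exact_mod_cast Finset.card_filter_add_card_filter_not
      (s := points ι H) (fun c => MvPolynomial.eval c P = 0)
  have hpos : (0 : ℝ) < (points ι H).card := by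
    rw [points_eq, card_box]
    positivity
  linarith

end Pool.Agent.H28.RF
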