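import Pool.Agent.H28.RF.Defs
import Pool.Graph.R_seed8.Y722.LS.Gen
import Pool.Graph.R_seed8.W353.PV.Eig

set_option autoImplicit false

namespace Pool.Agent.H28.RF

open Finset Pool.Agent.Y722.HS Pool.Agent.Y722.LS

variable {ι : Type} [Fintype ι] [DecidableEq ι] {l : ℕ}
  {X : Set (MvPolynomial (Fin l) (MvPolynomial ι ℤ))} {P : MvPolynomial ι ℤ} {d i b : ℕ}
  {t : ∀ p : ℕ, (ι → ZMod p) → ℂ}

/-- the eigenvalues are unique -/
theorem frob_unique (hi : i ≤ 2 * d) {p : ℕ} [hp : Fact p.Prime] {c : ι → ZMod p}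
    {α α' : Multiset ℂ} (h : IsFrobenius X d i p c α) (h' : IsFrobenius X d i p c α') : α = α' := by
  obtain ⟨β, rfl, h1, h2⟩ := h
  obtain ⟨β', rfl, h1', h2'⟩ := h'
  have hp1 : (1 : ℝ) < p := by exact_mod_cast hp.out.one_lt
  refine Pool.Agent.W353.PV.mult_unique (D := 2 * d + 1) hp1 h1 h1' (fun e he => ?_) (by omega)
  have e1 := h2 (GaloisField p e)
  have e2 := h2' (GaloisField p e)
  have hf : Module.finrank (ZMod p) (GaloisField p e) = e := GaloisField.finrank p (by omega)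
  rw [hf] at e1 e2
  rw [e1] at e2
  have hne : ((p : ℂ) ^ e - 1) ≠ 0 := by
    rw [sub_ne_zero]
    have h3 : (1 : ℝ) < (p : ℝ) ^ e := one_lt_pow₀ hp1 (by omega)
    intro h4
    have h5 : ((p : ℝ) ^ e) = 1 := by exact_mod_cast h4
    linarith
  exact mul_left_cancel₀ hne e2

/-- The centred normalised trace. -/
noncomputable def NN (t : ∀ p : ℕ, (ι → ZMod p) → ℂ) (i : ℕ) (p : ℕ) (c : ι → ZMod p) : ℝ :=
  ((t p c).re - (average t p).re) / (p : ℝ) ^ ((i : ℝ) / 2 + 1)

/-- The normalised mean. -/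
noncomputable def rho (t : ∀ p : ℕ, (ι → ZMod p) → ℂ) (i : ℕ) (p : ℕ) : ℝ :=
  (average t p).re / (p : ℝ) ^ ((i : ℝ) / 2 + 1)

open Classical in
/-- The indicator of `P(c) = 0`. -/
noncomputable def BB (P : MvPolynomial ι ℤ) (p : ℕ) (c : ι → ZMod p) : ℝ :=
  if MvPolynomial.eval₂ (Int.castRingHom (ZMod p)) c P = 0 then 1 else 0

theorem average_re (t : ∀ p : ℕ, (ι → ZMod p) → ℂ) (p : ℕ) [hp : Fact p.Prime] :
    (average t p).re = EM p (fun c => (t p c).re) := by
  unfold average EM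
  rw [finsum_eq_sum_of_fintype]
  have e : ((p : ℂ) ^ Fintype.card ι) = (((p : ℝ) ^ Fintype.card ι : ℝ) : ℂ) := by push_cast; rfl
  rw [e, Complex.div_ofReal_re, Complex.re_sum]

theorem average_norm (h : IsFamily X P d i b t) (p : ℕ) [hp : Fact p.Prime] :
    ‖average t p‖ ≤ b * (p : ℝ) ^ ((i : ℝ) / 2) := by
  have hp0 : (0 : ℝ) < p := by exact_mod_cast hp.out.pos
  unfold average
  rw [finsum_eq_sum_of_fintype, norm_div, norm_pow, Complex.norm_natCast, div_le_iff₀ (by positivity)]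
  refine (norm_sum_le _ _).trans ?_
  refine (Finset.sum_le_sum fun c _ => h.bound p c).trans ?_
  rw [Finset.sum_const, nsmul_eq_mul, Finset.card_univ, Fintype.card_fun, ZMod.card]
  push_cast
  rw [mul_comm]

theorem abs_rho (h : IsFamily X P d i b t) (p : ℕ) [hp : Fact p.Prime] : |rho t i p| ≤ b / p := by
  have hp0 : (0 : ℝ) < p := by exact_mod_cast hp.out.pos
  unfold rho
  rw [abs_div, abs_of_pos (by positivity : (0 : ℝ) < (p : ℝ) ^ ((i : ℝ) / 2 + 1)),
    div_le_div_iff₀ (by positivity) hp0, Real.rpow_add hp0, Real.rpow_one, ← mul_assoc]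
  exact mul_le_mul_of_nonneg_right
    ((Complex.abs_re_le_norm _).trans (average_norm h p)) hp0.le

theorem abs_NN (h : IsFamily X P d i b t) (p : ℕ) [hp : Fact p.Prime] (c : ι → ZMod p) :
    |NN t i p c| ≤ 2 * b / p := by
  have hp0 : (0 : ℝ) < p := by exact_mod_cast hp.out.pos
  unfold NN
  rw [abs_div, abs_of_pos (by positivity : (0 : ℝ) < (p : ℝ) ^ ((i : ℝ) / 2 + 1)),
    div_le_div_iff₀ (by positivity) hp0, Real.rpow_add hp0, Real.rpow_one, ← mul_assoc]
  refine mul_le_mul_of_nonneg_right ?_ hp0.le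
  refine (abs_sub _ _).trans ?_
  have h1 := (Complex.abs_re_le_norm _).trans (average_norm h p)
  have h2 := (Complex.abs_re_le_norm _).trans (h.bound p c)
  linarith

/-- The constant. -/
noncomputable def AA (P : MvPolynomial ι ℤ) (c0 : ι → ℤ) (b : ℕ) : ℝ :=
  1 + 4 * (b : ℝ) ^ 2 + P.totalDegree + |(MvPolynomial.eval c0 P : ℝ)|

theorem fam (h : IsFamily X P d i b t) (c0 : ι → ℤ) (hP : MvPolynomial.eval c0 P ≠ 0) :
    Fam (AA P c0 b) (NN t i) (BB P) := by
  classical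
  have hdeg0 : (0 : ℝ) ≤ P.totalDegree := by positivity
  have hev0 : (0 : ℝ) ≤ |(MvPolynomial.eval c0 P : ℝ)| := abs_nonneg _
  have hb0 : (0 : ℝ) ≤ 4 * (b : ℝ) ^ 2 := by positivity
  refine ⟨by unfold AA; linarith, ?_, ?_, ?_, ?_, ?_⟩
  · intro p hpF
    have hp0 : (0 : ℝ) < p := by exact_mod_cast hpF.out.pos
    rw [← EM_const (ι := ι) p (AA P c0 b / (p : ℝ) ^ 2)]
    apply EM_mono
    intro c
    have h1 := abs_NN h p c
    rw [← sq_abs]
    calc |NN t i p c| ^ 2 ≤ (2 * b / p) ^ 2 := by gcongr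
      _ = 4 * (b : ℝ) ^ 2 / (p : ℝ) ^ 2 := by ring
      _ ≤ _ := by
        gcongr
        unfold AA
        linarith
  · intro p hpF
    have hp0 : (0 : ℝ) < p := by exact_mod_cast hpF.out.pos
    have h1 : EM p (fun c => NN t i p c) = 0 := by
      have h2 : (fun c : ι → ZMod p => NN t i p c) = fun c =>
          (1 / (p : ℝ) ^ ((i : ℝ) / 2 + 1)) * ((t p c).re + -(average t p).re) := by
        funext c
        unfold NN
        ring
      rw [h2, EM_mul, EM_add, EM_const, average_re]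
      ring
    rw [h1, abs_zero]
    unfold AA
    positivity
  · intro p c
    unfold BB
    split_ifs <;> norm_num
  · intro p c
    unfold BB
    split_ifs <;> norm_num
  · intro p hpF
    have hp := hpF.out
    have hp0 : (0 : ℝ) < p := by exact_mod_cast hp.pos
    have hle1 : EM p (fun c : ι → ZMod p => BB P p c) ≤ 1 := by
      rw [← EM_const (ι := ι) p 1]
      apply EM_mono
      intro c
      unfold BB
      split_ifs <;> norm_num
    by_cases hdvd : (p : ℤ) ∣ MvPolynomial.eval c0 P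
    · refine hle1.trans ?_
      rw [le_div_iff₀ hp0, one_mul]
      have h1 : (p : ℤ) ≤ |MvPolynomial.eval c0 P| :=
        Int.le_of_dvd (abs_pos.mpr hP) ((dvd_abs _ _).mpr hdvd)
      have h2 : (p : ℝ) ≤ |(MvPolynomial.eval c0 P : ℝ)| := by exact_mod_cast h1
      unfold AA
      linarith
    · have h1 := card_zeros P c0 p hdvd
      have h2 : ∑ c : ι → ZMod p, BB P p c = ((Nat.card {c : ι → ZMod p //
          MvPolynomial.eval₂ (Int.castRingHom (ZMod p)) c P = 0} : ℕ) : ℝ) := by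
        rw [Nat.card_eq_fintype_card, Fintype.card_subtype]
        simp [BB]
      have hM : (0 : ℝ) < (p : ℝ) ^ Fintype.card ι := by positivity
      unfold EM
      rw [h2, div_le_div_iff₀ hM hp0]
      refine h1.trans ?_
      gcongr
      unfold AA
      linarith

theorem term_near (hi : i ≤ 2 * d) (h : IsFamily X P d i b t) {c : ι → ℤ} {α : ℕ → Fin b → ℂ}
    (hm : IsMember X P d i b c α) (p : ℕ) [hpF : Fact p.Prime] (ε : ℝ) (hε : 0 ≤ ε) :
    |((∑ j, α p j) * (p : ℂ) ^ (-ss (i + 1) ε)).re -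
      ((p : ℝ) ^ (-ε) * NN t i p (red p c) + rho t i p * (p : ℝ) ^ (-ε))| ≤
      bb (NN t i) (BB P) (2 * b) p (red p c) := by
  classical
  have hp := hpF.out
  have hp0 : (0 : ℝ) < p := by exact_mod_cast hp.pos
  have hp1 : (1 : ℝ) ≤ p := by exact_mod_cast hp.one_lt.le
  have hpε : (p : ℝ) ^ (-ε) ≤ 1 := Real.rpow_le_one_of_one_le_of_nonpos hp1 (by linarith)
  have hpε0 : 0 < (p : ℝ) ^ (-ε) := by positivity
  have hpi : 0 < (p : ℝ) ^ ((i : ℝ) / 2 + 1) := by positivity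
  have hcp : (p : ℂ) ^ (-ss (i + 1) ε) =
      (((p : ℝ) ^ (-ε) / (p : ℝ) ^ ((i : ℝ) / 2 + 1) : ℝ) : ℂ) := by
    have h1 : (p : ℝ) ^ (-ε) / (p : ℝ) ^ ((i : ℝ) / 2 + 1) = (p : ℝ) ^ (-((i : ℝ) / 2 + 1 + ε)) := by
      rw [neg_add, Real.rpow_add hp0 (-((i : ℝ) / 2 + 1)) (-ε),
        Real.rpow_neg hp0.le ((i : ℝ) / 2 + 1)]
      ring
    rw [h1, Complex.ofReal_cpow hp0.le]
    congr 1
    unfold ss
    push_cast
    ring
  have hρ := abs_rho h p
  by_cases hb : value P (reduction p c) = 0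
  · have h1 : bb (NN t i) (BB P) (2 * b) p (red p c) = |NN t i p (red p c)| + (2 * b) / p := by
      unfold bb BB
      have hb' : MvPolynomial.eval₂ (Int.castRingHom (ZMod p)) (red p c) P = 0 := hb
      rw [if_pos hb', one_mul]
    rw [h1]
    have h2 : |((∑ j, α p j) * (p : ℂ) ^ (-ss (i + 1) ε)).re| ≤ b / p := by
      refine (Complex.abs_re_le_norm _).trans ?_
      rw [norm_mul, hcp, Complex.norm_real, Real.norm_of_nonneg (by positivity)]
      have h3 : ‖∑ j, α p j‖ ≤ b * (p : ℝ) ^ ((i : ℝ) / 2) := by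
        refine (norm_sum_le _ _).trans ?_
        refine (Finset.sum_le_sum fun j _ => hm.bound p hp j).trans ?_
        rw [Finset.sum_const, nsmul_eq_mul, Finset.card_univ, Fintype.card_fin]
      calc _ ≤ b * (p : ℝ) ^ ((i : ℝ) / 2) * (1 / (p : ℝ) ^ ((i : ℝ) / 2 + 1)) := by gcongr
        _ = _ := by
          rw [Real.rpow_add hp0, Real.rpow_one]
          have : (p : ℝ) ^ ((i : ℝ) / 2) ≠ 0 := by positivity
          field_simp
    have h3 : |(p : ℝ) ^ (-ε) * NN t i p (red p c)| ≤ |NN t i p (red p c)| := by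
      rw [abs_mul, abs_of_pos hpε0]
      calc _ ≤ 1 * |NN t i p (red p c)| := by gcongr
        _ = _ := one_mul _
    have h4 : |rho t i p * (p : ℝ) ^ (-ε)| ≤ b / p := by
      rw [abs_mul, abs_of_pos hpε0]
      calc _ ≤ |rho t i p| * 1 := by gcongr
        _ ≤ _ := by rw [mul_one]; exact hρ
    have h5 := abs_sub (((∑ j, α p j) * (p : ℂ) ^ (-ss (i + 1) ε)).re)
      ((p : ℝ) ^ (-ε) * NN t i p (red p c) + rho t i p * (p : ℝ) ^ (-ε))
    have h6 := abs_add_le ((p : ℝ) ^ (-ε) * NN t i p (red p c)) (rho t i p * (p : ℝ) ^ (-ε))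
    have h7 : (2 * (b : ℝ)) / p = b / p + b / p := by ring
    rw [h7]
    linarith
  · have h1 : bb (NN t i) (BB P) (2 * b) p (red p c) = 0 := by
      unfold bb BB
      have hb' : ¬ MvPolynomial.eval₂ (Int.castRingHom (ZMod p)) (red p c) P = 0 := hb
      rw [if_neg hb', zero_mul]
    obtain ⟨a, ha1, -, ha3⟩ := h.trace p (reduction p c) hb
    have h2 := frob_unique hi ha1 (hm.good p hb)
    have h3 : ∑ j, α p j = t p (red p c) := by
      change _ = t p (reduction p c)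
      rw [ha3, h2]
      rfl
    rw [h1, h3, hcp, Complex.re_mul_ofReal]
    apply le_of_eq
    rw [abs_eq_zero, sub_eq_zero]
    unfold NN rho
    field_simp
    ring

/-- The sum over the primes up to `y`. -/
theorem sum_near (hi : i ≤ 2 * d) (h : IsFamily X P d i b t) {c : ι → ℤ} {α : ℕ → Fin b → ℂ}
    (hm : IsMember X P d i b c α) (y : ℕ) (ε : ℝ) (hε : 0 ≤ ε) :
    |∑ p ∈ PR y, ((∑ j, α p j) * (p : ℂ) ^ (-ss (i + 1) ε)).re -
      (Z1 (NN t i) y ε c + ∑ p ∈ PR y, rho t i p * (p : ℝ) ^ (-ε))| ≤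
      ∑ p ∈ PR y, bb (NN t i) (BB P) (2 * b) p (red p c) := by
  unfold Z1 WW
  rw [← Finset.sum_add_distrib, ← Finset.sum_sub_distrib]
  refine (Finset.abs_sum_le_sum_abs _ _).trans (Finset.sum_le_sum fun p hp => ?_)
  have := Fact.mk (mem_PR.mp hp).2
  exact term_near hi h hm p ε hε

end Pool.Agent.H28.RF
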