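import Pool.Agent.H28.RF.Fam

set_option autoImplicit false

namespace Pool.Agent.H28.RF

open Finset Pool.Agent.Y722.HS Pool.Agent.Y722.LS

variable {ι : Type} [Fintype ι] [DecidableEq ι] {l : ℕ}
  {X : Set (MvPolynomial (Fin l) (MvPolynomial ι ℤ))} {P : MvPolynomial ι ℤ} {d i b : ℕ}
  {t : ∀ p : ℕ, (ι → ZMod p) → ℂ}

theorem ss_eq (i : ℕ) (ε : ℝ) : ss (i + 1) ε = (i : ℂ) / 2 + 1 + ε := by
  unfold ss
  push_cast
  ring

theorem LFun_eq (α : ℕ → Fin b → ℂ) (s : ℂ) : LFun α s = LP α s := rfl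

theorem points_eq (H : ℕ) : points ι H = box ι H := rfl

/-- The series at a real point. -/
theorem mean_term (i : ℕ) (ε : ℝ) (p : ℕ) [hp : Fact p.Prime] :
    (average t p * ((p : ℕ) : ℂ) ^ (-((i : ℂ) / 2 + 1 + ε))).re = rho t i p * (p : ℝ) ^ (-ε) := by
  have hp0 : (0 : ℝ) < p := by exact_mod_cast hp.out.pos
  have hcp : (p : ℂ) ^ (-((i : ℂ) / 2 + 1 + ε)) =
      (((p : ℝ) ^ (-ε) / (p : ℝ) ^ ((i : ℝ) / 2 + 1) : ℝ) : ℂ) := by
    have h1 : (p : ℝ) ^ (-ε) / (p : ℝ) ^ ((i : ℝ) / 2 + 1) = (p : ℝ) ^ (-((i : ℝ) / 2 + 1 + ε)) := by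
      rw [neg_add, Real.rpow_add hp0 (-((i : ℝ) / 2 + 1)) (-ε),
        Real.rpow_neg hp0.le ((i : ℝ) / 2 + 1)]
      ring
    rw [h1, Complex.ofReal_cpow hp0.le]
    congr 1
    push_cast
    ring
  rw [hcp, Complex.re_mul_ofReal]
  unfold rho
  ring

theorem norm_term (h : IsFamily X P d i b t) (ε : ℝ) (p : ℕ) [hp : Fact p.Prime] :
    ‖average t p * ((p : ℕ) : ℂ) ^ (-((i : ℂ) / 2 + 1 + ε))‖ ≤ b * (p : ℝ) ^ (-1 - ε) := by
  have hp0 : (0 : ℝ) < p := by exact_mod_cast hp.out.pos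
  have h1 : ‖(p : ℂ) ^ (-((i : ℂ) / 2 + 1 + ε))‖ = (p : ℝ) ^ (-((i : ℝ) / 2 + 1 + ε)) := by
    have e : ((p : ℝ) : ℂ) = (p : ℂ) := by push_cast; rfl
    rw [← e, Complex.norm_cpow_eq_rpow_re_of_pos hp0]
    congr 1
    simp
  rw [norm_mul, h1]
  calc _ ≤ b * (p : ℝ) ^ ((i : ℝ) / 2) * (p : ℝ) ^ (-((i : ℝ) / 2 + 1 + ε)) := by
        gcongr
        exact average_norm h p
    _ = _ := by
      rw [mul_assoc, ← Real.rpow_add hp0]
      congr 2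
      ring

theorem mean_re (h : IsFamily X P d i b t) {ε : ℝ} (hε : 0 < ε) :
    (meanSeries t ((i : ℂ) / 2 + 1 + ε)).re = ∑' p : Nat.Primes, rho t i p * ((p : ℕ) : ℝ) ^ (-ε) := by
  have hs : Summable fun p : Nat.Primes => average t p * ((p : ℕ) : ℂ) ^ (-((i : ℂ) / 2 + 1 + ε)) := by
    refine Summable.of_norm_bounded ((summable_primes hε).mul_left (b : ℝ)) fun p => ?_
    have := Fact.mk p.2
    exact norm_term h ε p
  unfold meanSeries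
  rw [Complex.re_tsum hs]
  refine tsum_congr fun p => ?_
  have := Fact.mk p.2
  exact mean_term i ε p

/-- The tail of the series over the primes. -/
theorem tail_rho (h : IsFamily X P d i b t) (ε : ℝ) (hε : 0 < ε) (hε1 : ε ≤ 1) (y : ℕ)
    (hy : 1 ≤ y) :
    |∑' p : Nat.Primes, rho t i p * ((p : ℕ) : ℝ) ^ (-ε) -
      ∑ p ∈ PR y, rho t i p * (p : ℝ) ^ (-ε)| ≤ 3 * b * (16 / (ε * Real.log (y + 1))) := by
  have hb0 : (0 : ℝ) ≤ b := by positivity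
  have h1 := tail_tsum (fun p => rho t i p + b / p) (2 * b) (by positivity) (by
    intro p hp
    have := Fact.mk hp
    have h2 := abs_le.mp (abs_rho h p)
    have e : (2 * (b : ℝ)) / p = b / p + b / p := by ring
    constructor
    · linarith
    · rw [e]; linarith) ε hε hε1 y hy
  have h2 := tail_tsum (fun p => (b : ℝ) / p) b (by positivity) (by
    intro p hp
    have hp0 : (0 : ℝ) < p := by exact_mod_cast hp.pos
    exact ⟨by positivity, le_rfl⟩) ε hε hε1 y hy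
  have hs2 : Summable fun p : Nat.Primes => (b : ℝ) / ((p : ℕ) : ℝ) * ((p : ℕ) : ℝ) ^ (-ε) := by
    refine ((summable_primes hε).mul_left (b : ℝ)).congr fun p => ?_
    have hp0 : (0 : ℝ) < ((p : ℕ) : ℝ) := by exact_mod_cast p.2.pos
    rw [show (-1 - ε : ℝ) = -1 + -ε by ring, Real.rpow_add hp0, Real.rpow_neg_one]
    ring
  have hs1 : Summable fun p : Nat.Primes => rho t i p * ((p : ℕ) : ℝ) ^ (-ε) := by
    refine Summable.of_norm_bounded hs2 fun p => ?_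
    have := Fact.mk p.2
    have hp0 : (0 : ℝ) < ((p : ℕ) : ℝ) := by exact_mod_cast p.2.pos
    rw [norm_mul, Real.norm_eq_abs, Real.norm_of_nonneg (by positivity)]
    gcongr
    exact abs_rho h p
  have e1 : ∑' p : Nat.Primes, (rho t i p + b / ((p : ℕ) : ℝ)) * ((p : ℕ) : ℝ) ^ (-ε) =
      ∑' p : Nat.Primes, rho t i p * ((p : ℕ) : ℝ) ^ (-ε) +
        ∑' p : Nat.Primes, (b : ℝ) / ((p : ℕ) : ℝ) * ((p : ℕ) : ℝ) ^ (-ε) := by
    rw [← hs1.tsum_add hs2]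
    exact tsum_congr fun p => by ring
  have e2 : ∑ p ∈ PR y, (rho t i p + b / (p : ℝ)) * (p : ℝ) ^ (-ε) =
      ∑ p ∈ PR y, rho t i p * (p : ℝ) ^ (-ε) + ∑ p ∈ PR y, (b : ℝ) / (p : ℝ) * (p : ℝ) ^ (-ε) := by
    rw [← Finset.sum_add_distrib]
    exact Finset.sum_congr rfl fun p _ => by ring
  rw [e1, e2] at h1
  set A1 := ∑' p : Nat.Primes, rho t i p * ((p : ℕ) : ℝ) ^ (-ε)
  set A2 := ∑' p : Nat.Primes, (b : ℝ) / ((p : ℕ) : ℝ) * ((p : ℕ) : ℝ) ^ (-ε)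
  set B1 := ∑ p ∈ PR y, rho t i p * (p : ℝ) ^ (-ε)
  set B2 := ∑ p ∈ PR y, (b : ℝ) / (p : ℝ) * (p : ℝ) ^ (-ε)
  have e3 : A1 - B1 = (A1 + A2 - (B1 + B2)) - (A2 - B2) := by ring
  rw [e3]
  have := abs_sub (A1 + A2 - (B1 + B2)) (A2 - B2)
  linarith

/-- The L-function of one member. -/
theorem one_near (hi : i ≤ 2 * d) (h : IsFamily X P d i b t) (y : ℕ) (hy : 1 ≤ y) {c : ι → ℤ}
    {α : ℕ → Fin b → ℂ} (hm : IsMember X P d i b c α) (ε : ℝ)
    (hε : 0 < ε) (hε1 : ε ≤ 1) (hyε : 1 ≤ 4 * (ε * Real.log (y + 1))) :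
    |Real.log ‖LFun α ((i : ℂ) / 2 + 1 + ε)‖ - (meanSeries t ((i : ℂ) / 2 + 1 + ε)).re| ≤
      |Z1 (NN t i) y ε c| + ∑ p ∈ PR y, bb (NN t i) (BB P) (2 * b) p (red p c) +
        (b * SS + 320 * b) := by
  have hb0 : (0 : ℝ) ≤ b := by positivity
  have hbound : ∀ p : ℕ, p.Prime → ∀ j, ‖α p j‖ ≤ (p : ℝ) ^ ((((i + 1 : ℕ) : ℝ) - 1) / 2) := by
    intro p hp j
    have e : ((((i + 1 : ℕ) : ℝ) - 1) / 2) = (i : ℝ) / 2 := by push_cast; ring
    rw [e]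
    exact hm.bound p hp j
  have h1 := log_LP (n := i + 1) hε hε1 hbound y hy
  have h2 := sum_near hi h hm y ε hε.le
  have h16 : 16 / (ε * Real.log (y + 1)) ≤ 64 := by
    rw [div_le_iff₀ (by linarith)]
    linarith
  have h3 : 2 * (b : ℝ) * (16 / (ε * Real.log (y + 1))) ≤ 2 * b * 64 := by gcongr
  have h4 := tail_rho h ε hε hε1 y hy
  have h5 : 3 * (b : ℝ) * (16 / (ε * Real.log (y + 1))) ≤ 3 * b * 64 := by gcongr
  rw [mean_re h hε, LFun_eq, ← ss_eq]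
  set L := Real.log ‖LP α (ss (i + 1) ε)‖
  set S1 := ∑ p ∈ PR y, ((∑ j, α p j) * (p : ℂ) ^ (-ss (i + 1) ε)).re
  set Zz := Z1 (NN t i) y ε c
  set S2 := ∑ p ∈ PR y, rho t i p * (p : ℝ) ^ (-ε)
  set S4 := ∑ p ∈ PR y, bb (NN t i) (BB P) (2 * b) p (red p c)
  set S5 := ∑' p : Nat.Primes, rho t i p * ((p : ℕ) : ℝ) ^ (-ε)
  have e0 : L - S5 = (L - S1) + (S1 - (Zz + S2)) + Zz + (S2 - S5) := by ring
  rw [e0]
  have i2 := abs_add_le ((L - S1) + (S1 - (Zz + S2)) + Zz) (S2 - S5)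
  have i4 := abs_add_le ((L - S1) + (S1 - (Zz + S2))) Zz
  have i5 := abs_add_le (L - S1) (S1 - (Zz + S2))
  have i6 : |S2 - S5| ≤ 3 * b * 64 := by rw [abs_sub_comm]; exact h4.trans h5
  linarith

theorem exists_pt {P : MvPolynomial ι ℤ} (hP : P ≠ 0) : ∃ c0 : ι → ℤ, MvPolynomial.eval c0 P ≠ 0 := by
  by_contra hcon
  push Not at hcon
  exact hP (MvPolynomial.funext fun c => by rw [hcon c, map_zero])

/-- **The mean square.** -/
theorem mean_square (hi : i ≤ 2 * d) (h : IsFamily X P d i b t) : MeanSquare X P d i b t := by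
  obtain ⟨c0, hc0⟩ := exists_pt h.ne_zero
  have hfam := fam h c0 hc0
  set A : ℝ := AA P c0 b with hA
  set β : ℝ := 2 * b with hβ
  have hβ0 : 0 ≤ β := by positivity
  set K : ℝ := b * SS + 320 * b with hK
  refine ⟨3 * (3 * K1 ι A) + 3 * K4 ι A β + 3 * K ^ 2, ?_⟩
  intro H hH S hS α ε hα hε
  rw [points_eq] at hS ⊢
  obtain ⟨y, hy1, hy4, hyl⟩ := exists_y H hH
  have hlogH : 0 < Real.log H := Real.log_pos (by exact_mod_cast (by omega : 1 < H))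
  set M : (ι → ℤ) → ℝ := fun c => 3 * G1 (NN t i) y c +
    3 * (∑ p ∈ PR y, bb (NN t i) (BB P) β p (red p c)) ^ 2 + 3 * K ^ 2 with hM
  have hM0 : ∀ c, 0 ≤ M c := by
    intro c
    have h1 : 0 ≤ G1 (NN t i) y c :=
      le_trans (sq_nonneg _) (Z1_sq_le (N := NN t i) y c 0 le_rfl zero_le_one)
    simp only [hM]
    positivity
  have hone : ∀ c ∈ S, (Real.log ‖LFun (α c) ((i : ℂ) / 2 + 1 + ε c)‖ -
      (meanSeries t ((i : ℂ) / 2 + 1 + ε c)).re) ^ 2 ≤ M c := by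
    intro c hc
    obtain ⟨hε0, hε1⟩ := hε c hc
    have hεp : 0 < ε c := lt_of_lt_of_le (by positivity) hε0
    have hyε : 1 ≤ 4 * (ε c * Real.log (y + 1)) := by
      have h4 : 1 ≤ ε c * Real.log H := by
        rw [div_le_iff₀ hlogH] at hε0
        exact hε0
      calc (1 : ℝ) ≤ ε c * Real.log H := h4
        _ ≤ ε c * (4 * Real.log (y + 1)) := by gcongr
        _ = _ := by ring
    have h1 := one_near hi h y hy1 (hα c hc) (ε c) hεp hε1 hyε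
    rw [← hβ, ← hK] at h1
    have h3 : Z1 (NN t i) y (ε c) c ^ 2 ≤ G1 (NN t i) y c :=
      Z1_sq_le (N := NN t i) y c (ε c) hεp.le hε1
    set X' := Real.log ‖LFun (α c) ((i : ℂ) / 2 + 1 + ε c)‖ -
      (meanSeries t ((i : ℂ) / 2 + 1 + ε c)).re
    set z := Z1 (NN t i) y (ε c) c
    set w := ∑ p ∈ PR y, bb (NN t i) (BB P) β p (red p c)
    have hK0 : 0 ≤ |z| + w + K := le_trans (abs_nonneg _) h1
    have h4 : X' ^ 2 ≤ (|z| + w + K) ^ 2 := by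
      rw [← sq_abs X']
      gcongr
    have h5 : (|z| + w + K) ^ 2 ≤ 3 * |z| ^ 2 + 3 * w ^ 2 + 3 * K ^ 2 := by
      nlinarith [sq_nonneg (|z| - w), sq_nonneg (|z| - K), sq_nonneg (w - K)]
    rw [sq_abs] at h5
    simp only [hM]
    linarith
  have h1 : EB H M ≤ 3 * (3 * K1 ι A) + 3 * K4 ι A β + 3 * K ^ 2 := by
    rw [hM, EB_add, EB_add, EB_const, Pool.Agent.Y722.HS.EB_mul, Pool.Agent.Y722.HS.EB_mul]
    have e1 := hfam.EB_G1 H y hy4
    have e2 := hfam.EB_bb_sq hβ0 H y hy4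
    linarith
  have hB : (0 : ℝ) < (2 * H + 1 : ℝ) ^ Fintype.card ι := by positivity
  calc _ ≤ ∑ c ∈ S, M c := Finset.sum_le_sum hone
    _ ≤ ∑ c ∈ box ι H, M c := Finset.sum_le_sum_of_subset_of_nonneg hS fun c _ _ => hM0 c
    _ = EB H M * (box ι H).card := by
        rw [EB, card_box]
        field_simp
    _ ≤ _ := by gcongr

end Pool.Agent.H28.RF
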