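import Pool.Agent.H28.RF.Equiv

set_option autoImplicit false

namespace Pool.Agent.H28.RF

open Finset Filter Topology Pool.Agent.Y722.HS Pool.Agent.Y722.LS

variable {ι : Type} [Fintype ι] [DecidableEq ι] {l : ℕ}
  {X : Set (MvPolynomial (Fin l) (MvPolynomial ι ℤ))} {P : MvPolynomial ι ℤ} {d i b : ℕ}
  {t : ∀ p : ℕ, (ι → ZMod p) → ℂ}

/-- The real series. -/
noncomputable def FF (t : ∀ p : ℕ, (ι → ZMod p) → ℂ) (i : ℕ) (ε : ℝ) : ℝ :=
  ∑' p : Nat.Primes, rho t i p * ((p : ℕ) : ℝ) ^ (-ε)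

/-- The real series with logarithms. -/
noncomputable def DD (t : ∀ p : ℕ, (ι → ZMod p) → ℂ) (i : ℕ) (ε : ℝ) : ℝ :=
  ∑' p : Nat.Primes, rho t i p * Real.log p * ((p : ℕ) : ℝ) ^ (-ε)

theorem log_term_le (h : IsFamily X P d i b t) {δ ε : ℝ} (hδ : 0 < δ) (hε : δ ≤ ε)
    (p : Nat.Primes) :
    |rho t i p * Real.log p * ((p : ℕ) : ℝ) ^ (-ε)| ≤
      b * (2 / δ) * ((p : ℕ) : ℝ) ^ (-1 - δ / 2) := by
  have := Fact.mk p.2
  have hp0 : (0 : ℝ) < ((p : ℕ) : ℝ) := by exact_mod_cast p.2.pos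
  have hp1 : (1 : ℝ) ≤ ((p : ℕ) : ℝ) := by exact_mod_cast p.2.one_lt.le
  have hl : 0 ≤ Real.log ((p : ℕ) : ℝ) := Real.log_nonneg hp1
  have h1 : Real.log ((p : ℕ) : ℝ) ≤ ((p : ℕ) : ℝ) ^ (δ / 2) / (δ / 2) :=
    Real.log_le_rpow_div hp0.le (by positivity)
  have h2 : ((p : ℕ) : ℝ) ^ (-ε) ≤ ((p : ℕ) : ℝ) ^ (-δ) :=
    Real.rpow_le_rpow_of_exponent_le hp1 (by linarith)
  rw [abs_mul, abs_mul, abs_of_nonneg hl, abs_of_pos (by positivity : (0 : ℝ) < ((p : ℕ) : ℝ) ^ (-ε))]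
  calc _ ≤ (b / ((p : ℕ) : ℝ)) * (((p : ℕ) : ℝ) ^ (δ / 2) / (δ / 2)) * ((p : ℕ) : ℝ) ^ (-δ) := by
        gcongr
        exact abs_rho h p
    _ = _ := by
      have e : (-1 - δ / 2 : ℝ) = -1 + (δ / 2 + -δ) := by ring
      rw [e, Real.rpow_add hp0 (-1), Real.rpow_add hp0 (δ / 2), Real.rpow_neg_one]
      field_simp

theorem summable_FF (h : IsFamily X P d i b t) {ε : ℝ} (hε : 0 < ε) :
    Summable fun p : Nat.Primes => rho t i p * ((p : ℕ) : ℝ) ^ (-ε) := by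
  refine Summable.of_norm_bounded ((summable_primes hε).mul_left (b : ℝ)) fun p => ?_
  have := Fact.mk p.2
  have hp0 : (0 : ℝ) < ((p : ℕ) : ℝ) := by exact_mod_cast p.2.pos
  rw [norm_mul, Real.norm_eq_abs, Real.norm_of_nonneg (by positivity),
    show (-1 - ε : ℝ) = -1 + -ε by ring, Real.rpow_add hp0, Real.rpow_neg_one, ← mul_assoc]
  gcongr
  exact abs_rho h p

theorem FF_le (h : IsFamily X P d i b t) {δ : ℝ} (hδ : 0 < δ) :
    ∃ C : ℝ, ∀ ε : ℝ, δ ≤ ε → |FF t i ε| ≤ C := by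
  refine ⟨∑' p : Nat.Primes, (b : ℝ) * ((p : ℕ) : ℝ) ^ (-1 - δ), fun ε hε => ?_⟩
  have hs := (summable_primes hδ).mul_left (b : ℝ)
  unfold FF
  rw [← Real.norm_eq_abs]
  refine tsum_of_norm_bounded hs.hasSum fun p => ?_
  have := Fact.mk p.2
  have hp0 : (0 : ℝ) < ((p : ℕ) : ℝ) := by exact_mod_cast p.2.pos
  have hp1 : (1 : ℝ) ≤ ((p : ℕ) : ℝ) := by exact_mod_cast p.2.one_lt.le
  have h2 : ((p : ℕ) : ℝ) ^ (-ε) ≤ ((p : ℕ) : ℝ) ^ (-δ) :=
    Real.rpow_le_rpow_of_exponent_le hp1 (by linarith)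
  rw [norm_mul, Real.norm_eq_abs, Real.norm_of_nonneg (by positivity),
    show (-1 - δ : ℝ) = -1 + -δ by ring, Real.rpow_add hp0, Real.rpow_neg_one, ← mul_assoc]
  have h3 := abs_rho h p
  calc _ ≤ (b / ((p : ℕ) : ℝ)) * ((p : ℕ) : ℝ) ^ (-δ) := by gcongr
    _ = _ := by ring

theorem hasDerivAt_FF (h : IsFamily X P d i b t) {ε : ℝ} (hε : 0 < ε) :
    HasDerivAt (FF t i) (-DD t i ε) ε := by
  have hδ : 0 < ε / 2 := by positivity
  have hu : Summable fun p : Nat.Primes => (b : ℝ) * (2 / (ε / 2)) * ((p : ℕ) : ℝ) ^ (-1 - ε / 2 / 2) :=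
    (summable_primes (by positivity)).mul_left _
  have h1 := hasDerivAt_tsum_of_isPreconnected (u := fun p : Nat.Primes =>
    (b : ℝ) * (2 / (ε / 2)) * ((p : ℕ) : ℝ) ^ (-1 - ε / 2 / 2)) (t := Set.Ioi (ε / 2))
    (g := fun (p : Nat.Primes) (u : ℝ) => rho t i p * ((p : ℕ) : ℝ) ^ (-u))
    (g' := fun (p : Nat.Primes) (u : ℝ) => -(rho t i p * Real.log p * ((p : ℕ) : ℝ) ^ (-u)))
    (y₀ := ε) (y := ε) hu isOpen_Ioi isPreconnected_Ioi (fun p y _ => ?_) (fun p y hy => ?_)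
    (by simp [hε]) (summable_FF h hε) (by simp [hε])
  · have e : -DD t i ε = ∑' p : Nat.Primes, -(rho t i p * Real.log p * ((p : ℕ) : ℝ) ^ (-ε)) := by
      unfold DD
      rw [tsum_neg]
    rw [e]
    exact h1
  · have hp0 : (0 : ℝ) < ((p : ℕ) : ℝ) := by exact_mod_cast p.2.pos
    have h2 : HasDerivAt (fun u : ℝ => ((p : ℕ) : ℝ) ^ (-u))
        (Real.log p * (-1) * ((p : ℕ) : ℝ) ^ (-y)) y := (hasDerivAt_neg y).const_rpow hp0
    refine (h2.const_mul (rho t i p)).congr_deriv ?_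
    ring
  · rw [norm_neg, Real.norm_eq_abs]
    exact log_term_le h hδ (le_of_lt hy) p

theorem residue_re (h : IsFamily X P d i b t) {ε : ℝ} (hε : 0 < ε) :
    (residueSeries t ((i : ℂ) / 2 + 1 + ε)).re = DD t i ε := by
  have key : ∀ p : Nat.Primes, average t p * Real.log p * ((p : ℕ) : ℂ) ^ (-((i : ℂ) / 2 + 1 + ε)) =
      (average t p * ((p : ℕ) : ℂ) ^ (-((i : ℂ) / 2 + 1 + ε))) * (Real.log p : ℝ) := fun p => by ring
  have hs : Summable fun p : Nat.Primes =>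
      average t p * Real.log p * ((p : ℕ) : ℂ) ^ (-((i : ℂ) / 2 + 1 + ε)) := by
    refine Summable.of_norm_bounded (g := fun p : Nat.Primes =>
      (b : ℝ) * (2 / ε) * ((p : ℕ) : ℝ) ^ (-1 - ε / 2)) ((summable_primes (by positivity)).mul_left _)
      fun p => ?_
    have := Fact.mk p.2
    have hp0 : (0 : ℝ) < ((p : ℕ) : ℝ) := by exact_mod_cast p.2.pos
    have hp1 : (1 : ℝ) ≤ ((p : ℕ) : ℝ) := by exact_mod_cast p.2.one_lt.le
    have hl : 0 ≤ Real.log ((p : ℕ) : ℝ) := Real.log_nonneg hp1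
    have h1 : Real.log ((p : ℕ) : ℝ) ≤ ((p : ℕ) : ℝ) ^ (ε / 2) / (ε / 2) :=
      Real.log_le_rpow_div hp0.le (by positivity)
    rw [key, norm_mul, Complex.norm_real, Real.norm_of_nonneg hl]
    calc _ ≤ (b * ((p : ℕ) : ℝ) ^ (-1 - ε)) * (((p : ℕ) : ℝ) ^ (ε / 2) / (ε / 2)) := by
          gcongr
          exact norm_term h ε p
      _ = _ := by
        have e : (-1 - ε / 2 : ℝ) = (-1 - ε) + ε / 2 := by ring
        rw [e, Real.rpow_add hp0 (-1 - ε)]
        field_simp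
  unfold residueSeries DD
  rw [Complex.re_tsum hs]
  refine tsum_congr fun p => ?_
  have := Fact.mk p.2
  rw [key, Complex.re_mul_ofReal, mean_term]
  ring

theorem meanOrder_of_residue (h : IsFamily X P d i b t) {r : ℝ} (hr : HasResidue t i r) :
    MeanOrder t i r := by
  obtain ⟨g, hg, hev⟩ := hr
  set s0 : ℂ := (i : ℂ) / 2 + 1 with hs0
  obtain ⟨M, hM⟩ : ∃ M : ℝ, ∀ᶠ s in 𝓝 s0, ‖g s‖ ≤ M := by
    refine ⟨‖g s0‖ + 1, ?_⟩
    have h1 := hg.continuousAt.norm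
    exact h1.eventually_le_const (by linarith)
  obtain ⟨η, hη, hball⟩ := Metric.eventually_nhds_iff.mp (hev.and hM)
  set ε0 : ℝ := min (η / 2) 1 with hε0
  have hε0pos : 0 < ε0 := by positivity
  have hre : s0.re = (i : ℝ) / 2 + 1 := by
    simp [hs0]
  have hD : ∀ ε : ℝ, 0 < ε → ε ≤ ε0 → |DD t i ε - r / ε| ≤ M := by
    intro ε h0 h1
    have h2 : dist (s0 + ε) s0 < η := by
      rw [dist_eq_norm, add_sub_cancel_left, Complex.norm_real, Real.norm_of_nonneg h0.le]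
      have := min_le_left (η / 2) 1
      linarith
    obtain ⟨h3, h4⟩ := hball h2
    have h5 := h3 (by
      rw [Complex.add_re, hre, Complex.ofReal_re]
      linarith)
    rw [add_sub_cancel_left] at h5
    have h6 : (residueSeries t (s0 + ε)).re = r / ε + (g (s0 + ε)).re := by
      rw [h5, Complex.add_re]
      congr 1
      rw [← Complex.ofReal_div, Complex.ofReal_re]
    rw [hs0] at h6
    rw [residue_re h h0] at h6
    rw [h6, add_sub_cancel_left]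
    exact (Complex.abs_re_le_norm _).trans h4
  obtain ⟨C1, hC1⟩ := FF_le h hε0pos
  have hMpos : 0 ≤ M := (abs_nonneg _).trans (hD ε0 hε0pos le_rfl)
  set G : ℝ → ℝ := fun ε => FF t i ε + r * Real.log ε with hG
  have hGd : ∀ ε : ℝ, 0 < ε → HasDerivAt G (-DD t i ε + r * ε⁻¹) ε := fun ε h0 =>
    (hasDerivAt_FF h h0).add ((Real.hasDerivAt_log h0.ne').const_mul r)
  have hGb : ∀ ε : ℝ, 0 < ε → ε ≤ ε0 → |G ε - G ε0| ≤ M := by
    intro ε h0 h1
    have h2 := Convex.norm_image_sub_le_of_norm_hasDerivWithin_le (f := G)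
      (f' := fun x => -DD t i x + r * x⁻¹) (s := Set.Icc ε ε0) (C := M) (x := ε0) (y := ε)
      (fun x hx => (hGd x (lt_of_lt_of_le h0 hx.1)).hasDerivWithinAt)
      (fun x hx => by
        have h3 := hD x (lt_of_lt_of_le h0 hx.1) hx.2
        rw [Real.norm_eq_abs]
        have e : -DD t i x + r * x⁻¹ = -(DD t i x - r / x) := by ring
        rw [e, abs_neg]
        exact h3) (convex_Icc _ _) ⟨h1, le_rfl⟩ ⟨le_rfl, h1⟩
    rw [Real.norm_eq_abs, Real.norm_eq_abs] at h2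
    refine h2.trans ?_
    have h3 : |ε - ε0| ≤ 1 := by
      have h4 : ε0 ≤ 1 := min_le_right _ _
      rw [abs_le]
      constructor <;> linarith
    calc M * |ε - ε0| ≤ M * 1 := by gcongr
      _ = M := mul_one M
  refine ⟨M + |G ε0| + C1 + |r| * Real.log (1 / ε0), fun ε h0 h1 => ?_⟩
  have hFF : (meanSeries t (s0 + ε)).re = FF t i ε := mean_re h h0
  rw [hFF]
  have hlog0 : 0 ≤ Real.log (1 / ε0) := Real.log_nonneg (by
    rw [le_div_iff₀ hε0pos, one_mul]; exact min_le_right _ _)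
  have hC10 : 0 ≤ C1 := (abs_nonneg _).trans (hC1 ε0 le_rfl)
  have hl1 : Real.log (1 / ε) = -Real.log ε := by rw [one_div, Real.log_inv]
  rcases le_total ε ε0 with h2 | h2
  · have h3 := hGb ε h0 h2
    have e : FF t i ε - r * Real.log (1 / ε) = (G ε - G ε0) + G ε0 := by
      rw [hl1]; simp only [hG]; ring
    rw [e]
    have h4 := abs_add_le (G ε - G ε0) (G ε0)
    have h5 : 0 ≤ |r| * Real.log (1 / ε0) := by positivity
    linarith
  · have h3 := hC1 ε h2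
    have h4 := abs_sub (FF t i ε) (r * Real.log (1 / ε))
    have h5 : |r * Real.log (1 / ε)| ≤ |r| * Real.log (1 / ε0) := by
      rw [abs_mul, abs_of_nonneg (Real.log_nonneg (by rw [le_div_iff₀ h0, one_mul]; exact h1))]
      gcongr
    have h6 := abs_nonneg (G ε0)
    linarith

theorem meanOrder_unique {r r' : ℝ} (h : MeanOrder t i r) (h' : MeanOrder t i r') : r = r' := by
  by_contra hne
  obtain ⟨C, hC⟩ := h
  obtain ⟨C', hC'⟩ := h'
  have hpos : 0 < |r - r'| := abs_pos.mpr (sub_ne_zero.mpr hne)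
  have hCC : 0 ≤ C := (abs_nonneg _).trans (hC 1 one_pos le_rfl)
  have hCC' : 0 ≤ C' := (abs_nonneg _).trans (hC' 1 one_pos le_rfl)
  set T : ℝ := (C + C' + 1) / |r - r'| with hT
  have hT0 : 0 ≤ T := by positivity
  have h1 := hC (Real.exp (-T)) (Real.exp_pos _) (by rw [Real.exp_le_one_iff]; linarith)
  have h2 := hC' (Real.exp (-T)) (Real.exp_pos _) (by rw [Real.exp_le_one_iff]; linarith)
  have e1 : Real.log (1 / Real.exp (-T)) = T := by
    rw [one_div, Real.log_inv, Real.log_exp, neg_neg]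
  rw [e1] at h1 h2
  set A := (meanSeries t ((i : ℂ) / 2 + 1 + (Real.exp (-T) : ℝ))).re
  have h3 := abs_sub (A - r' * T) (A - r * T)
  have e2 : A - r' * T - (A - r * T) = (r - r') * T := by ring
  rw [e2, abs_mul, abs_of_nonneg hT0] at h3
  have e3 : |r - r'| * T = C + C' + 1 := by
    rw [hT]
    field_simp
  linarith

end Pool.Agent.H28.RF
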